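import Pool.Agent.Helper23.EC.DGoalsM

/-! Packet R3: the correction sum. -/

set_option autoImplicit false

open MeasureTheory Filter Topology Set EC237

namespace Pool.Agent.Helper85.EC.D_R3

/-- Reflection. -/
def rf (k : ℤ × ℤ) : ℤ × ℤ := (-k.1, k.2)

theorem rf_rf (k : ℤ × ℤ) : rf (rf k) = k := by
  unfold rf
  simp

/-- Reflection as an equivalence. -/
def rfE : (ℤ × ℤ) ≃ (ℤ × ℤ) := ⟨rf, rf, rf_rf, rf_rf⟩

theorem incl_rf (k : ℤ × ℤ) : InCl 5 (rf k) ↔ InCl 5 k := by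
  unfold InCl rf
  simp only
  omega

theorem KA_rf (w : ℂ) (k : ℤ × ℤ) : KA w (rf k) = -KB w k := by
  unfold KA KB rf
  push_cast
  ring

theorem KB_rf (w : ℂ) (k : ℤ × ℤ) : KB w (rf k) = -KA w k := by
  unfold KA KB rf
  push_cast
  ring

theorem gser_zero (a : ℂ) : gser a 0 = PowerSeries.C a := by
  ext n
  unfold gser
  rw [PowerSeries.coeff_mk, PowerSeries.coeff_C]
  split_ifs with h
  · rw [h]; simp
  · rw [zero_pow h, zero_mul]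

theorem As_zero (w : ℂ) (k : ℤ × ℤ) : As w (k, 0) = PowerSeries.C (KA w k)⁻¹ := by
  unfold As
  simp only [Int.cast_zero]
  exact gser_zero _

theorem Bs_zero (w : ℂ) (k : ℤ × ℤ) : Bs w (k, 0) = PowerSeries.C (KB w k)⁻¹ := by
  unfold Bs
  simp only [Int.cast_zero]
  exact gser_zero _

theorem pp1_zero (w : ℂ) (k : ℤ × ℤ) : PowerSeries.coeff 0 (pp1 w (k, 0)) =
    (KA w k)⁻¹ * (KB w k)⁻¹ * ((KA w k)⁻¹ - (KB w k)⁻¹) := by
  unfold pp1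
  rw [As_zero, Bs_zero, ← map_mul, ← map_sub, ← map_mul, PowerSeries.coeff_zero_C]

theorem qq1_zero (w : ℂ) (k : ℤ × ℤ) : PowerSeries.coeff 0 (qq1 w (k, 0)) =
    (KA w k)⁻¹ ^ 3 - (KB w k)⁻¹ ^ 3 := by
  unfold qq1
  rw [As_zero, Bs_zero, ← map_pow, ← map_pow, ← map_sub, PowerSeries.coeff_zero_C]

theorem key (w : ℂ) (v1 : SV) (k : ℤ × ℤ) :
    PowerSeries.coeff 2 (Eo w v1 (k, 0)) + PowerSeries.coeff 2 (Eo w v1 (rf k, 0)) =
    2 / 3 * w ^ 3 * (PowerSeries.coeff 0 (pp1 w (k, 0)) * PowerSeries.coeff 2 (qq1 w v1) +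
      PowerSeries.coeff 0 (qq1 w (k, 0)) * PowerSeries.coeff 2 (pp1 w v1) +
      2 * (PowerSeries.coeff 0 (pp1 w (k, 0)) * PowerSeries.coeff 2 (pp1 w v1))) := by
  rw [pp1_zero, qq1_zero]
  have h1 : Eo w v1 (k, 0) + Eo w v1 (rf k, 0) = PowerSeries.C (2 / 3 * w ^ 3) *
      (PowerSeries.C ((KA w k)⁻¹ * (KB w k)⁻¹ * ((KA w k)⁻¹ - (KB w k)⁻¹)) * qq1 w v1 +
      PowerSeries.C ((KA w k)⁻¹ ^ 3 - (KB w k)⁻¹ ^ 3) * pp1 w v1 +
      PowerSeries.C 2 * (PowerSeries.C ((KA w k)⁻¹ * (KB w k)⁻¹ * ((KA w k)⁻¹ - (KB w k)⁻¹)) *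
        pp1 w v1)) := by
    unfold Eo XX pp1 qq1
    rw [As_zero, Bs_zero, As_zero, Bs_zero, KA_rf, KB_rf, inv_neg, inv_neg]
    simp only [PowerSeries.smul_eq_C_mul, map_mul, map_sub, map_neg, map_pow]
    have h2 : (PowerSeries.C (2:ℂ)) = (2 : PowerSeries ℂ) := map_ofNat _ 2
    rw [h2]
    ring
  rw [← map_add, h1]
  simp only [PowerSeries.coeff_C_mul, map_add]

theorem thm (hB6 : EC237.B6) (hR1 : EC237.R1) (hR2 : EC237.R2) : EC237.R3 := by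
  intro y hy
  obtain ⟨s1, s2, s3, s4⟩ := hR2 y hy
  set f1 : ℤ × ℤ → ℂ := fun k => if InCl 1 k then PowerSeries.coeff 2 (pp1 (y:ℂ) (k, 1)) else 0
    with hf1
  set g1 : ℤ × ℤ → ℂ := fun k => if InCl 1 k then PowerSeries.coeff 2 (qq1 (y:ℂ) (k, 1)) else 0
    with hg1
  set f3 : ℤ × ℤ → ℂ := fun k => if InCl 5 k then PowerSeries.coeff 0 (pp1 (y:ℂ) (k, 0)) else 0
    with hf3
  set g3 : ℤ × ℤ → ℂ := fun k => if InCl 5 k then PowerSeries.coeff 0 (qq1 (y:ℂ) (k, 0)) else 0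
    with hg3
  have p1 : ∀ (f g : ℤ × ℤ → ℂ) (a b : ℂ), HasSum f a → HasSum g b →
      HasSum (fun q : (ℤ × ℤ) × (ℤ × ℤ) => f q.1 * g q.2) (a * b) := by
    intro f g a b hf hg
    have h1 := (summable_mul_of_summable_norm hf.summable.norm hg.summable.norm).hasSum
    rw [← tsum_mul_tsum_of_summable_norm hf.summable.norm hg.summable.norm, hf.tsum_eq,
      hg.tsum_eq] at h1
    exact h1
  -- the correction family
  set E : (ℤ × ℤ) × (ℤ × ℤ) → ℂ := fun q => if InCl 1 q.1 ∧ InCl 5 q.2 then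
    PowerSeries.coeff 2 (Eo (y:ℂ) (q.1, 1) (q.2, 0)) else 0 with hE
  have hEs : Summable E := hB6 y hy
  have hC : HasSum E (CorS (y:ℂ)) := hEs.hasSum
  have hC' : HasSum (fun q : (ℤ × ℤ) × (ℤ × ℤ) => E (q.1, rf q.2)) (CorS (y:ℂ)) :=
    ((Equiv.refl (ℤ × ℤ)).prodCongr rfE).hasSum_iff.2 hC
  have hsum := hC.add hC'
  have hval : HasSum (fun q : (ℤ × ℤ) × (ℤ × ℤ) => E q + E (q.1, rf q.2))
      (2 / 3 * (y:ℂ) ^ 3 * (-(2 * Complex.I * ((M2 y / y + M2d y : ℝ) : ℂ)) *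
        (2 * Complex.I * ((M0 y / y : ℝ) : ℂ)) + -(2 * Complex.I * ((M2 y / y : ℝ) : ℂ)) *
        (2 * Complex.I * ((M0 y / y + M0d y : ℝ) : ℂ)) +
        2 * (-(2 * Complex.I * ((M2 y / y : ℝ) : ℂ)) * (2 * Complex.I * ((M0 y / y : ℝ) : ℂ))))) := by
    have h1 := (((p1 g1 f3 _ _ s2 s3).add (p1 f1 g3 _ _ s1 s4)).add
      ((p1 f1 f3 _ _ s1 s3).mul_left 2)).mul_left (2 / 3 * (y:ℂ) ^ 3)
    refine h1.congr_fun fun q => ?_
    by_cases hq : InCl 1 q.1 ∧ InCl 5 q.2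
    · have e1 : E q = PowerSeries.coeff 2 (Eo (y:ℂ) (q.1, 1) (q.2, 0)) := by
        rw [hE]; simp only; rw [if_pos hq]
      have e2 : E (q.1, rf q.2) = PowerSeries.coeff 2 (Eo (y:ℂ) (q.1, 1) (rf q.2, 0)) := by
        rw [hE]; simp only; rw [if_pos ⟨hq.1, (incl_rf _).2 hq.2⟩]
      rw [e1, e2, key, hf1, hg1, hf3, hg3]
      simp only
      rw [if_pos hq.1, if_pos hq.2, if_pos hq.1, if_pos hq.2]
      ring
    · have e1 : E q = 0 := by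
        rw [hE]; simp only; rw [if_neg hq]
      have e2 : E (q.1, rf q.2) = 0 := by
        rw [hE]; simp only; rw [if_neg (fun h => hq ⟨h.1, (incl_rf _).1 h.2⟩)]
      rw [e1, e2, hf1, hg1, hf3, hg3]
      simp only
      rcases not_and_or.1 hq with h | h
      · rw [if_neg h, if_neg h]; ring
      · rw [if_neg h, if_neg h]; ring
  have hfin := hsum.unique hval
  have hy' : (y:ℂ) ≠ 0 := by exact_mod_cast hy.ne'
  have hI : Complex.I * Complex.I = -1 := Complex.I_mul_I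
  have h2 : CorS (y:ℂ) = 1 / 3 * (y:ℂ) ^ 3 * (-(2 * Complex.I * ((M2 y / y + M2d y : ℝ) : ℂ)) *
        (2 * Complex.I * ((M0 y / y : ℝ) : ℂ)) + -(2 * Complex.I * ((M2 y / y : ℝ) : ℂ)) *
        (2 * Complex.I * ((M0 y / y + M0d y : ℝ) : ℂ)) +
        2 * (-(2 * Complex.I * ((M2 y / y : ℝ) : ℂ)) * (2 * Complex.I * ((M0 y / y : ℝ) : ℂ)))) := by
    linear_combination (1 / 2) * hfin
  rw [h2]
  push_cast
  field_simp
  linear_combination (-4 * ((M2 y : ℂ) * y * (M0d y : ℂ) + 4 * (M2 y : ℂ) * (M0 y : ℂ) +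
    y * (M2d y : ℂ) * (M0 y : ℂ))) * hI

end Pool.Agent.Helper85.EC.D_R3
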