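import Pool.Agent.Helper38.EC.GoalsE1

/-! Packet FIN: `Φ_B(y) → 0` as `y → ∞`. -/

set_option autoImplicit false

open MeasureTheory Filter Topology Set EC237 EC237.DX

namespace Pool.Agent.Helper85.EC.E_FIN

theorem KB_norm (y : ℝ) (s : ℤ × ℤ) : ‖KB (y:ℂ) s‖ = ry y s := by
  unfold ry
  have h : KB (y:ℂ) s = (starRingEnd ℂ) (KA (y:ℂ) s) := by
    unfold KA KB
    simp only [map_add, map_mul, Complex.conj_I, Complex.conj_ofReal, map_intCast]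
    ring
  rw [h, Complex.norm_conj]

theorem nI_norm (y : ℝ) (s : ℤ × ℤ) (hr : 0 < ry y s) :
    ‖nI (y:ℂ) s‖ = ry y s ^ (-2 : ℝ) := by
  unfold nI
  rw [norm_inv, norm_mul, KB_norm, Real.rpow_neg hr.le, show (2:ℝ) = ((2:ℕ):ℝ) by norm_num,
    Real.rpow_natCast, sq]
  rfl

theorem nI_zero (w : ℂ) : nI w 0 = 0 := by
  unfold nI KA KB
  simp

theorem ry_pos (y : ℝ) (hy : 0 < y) (s : ℤ × ℤ) (hs : s ≠ 0) : 0 < ry y s := by
  unfold ry
  rw [norm_pos_iff]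
  intro h
  apply hs
  unfold KA at h
  have h1 := congrArg Complex.re h
  have h2 := congrArg Complex.im h
  simp only [Complex.add_re, Complex.intCast_re, Complex.mul_re, Complex.I_re, Complex.I_im,
    Complex.mul_im, Complex.intCast_im, Complex.ofReal_re, Complex.ofReal_im, Complex.zero_re,
    Complex.add_im, Complex.zero_im] at h1 h2
  have h3 : (s.1 : ℝ) = 0 := by linarith
  have h4 : (s.2 : ℝ) = 0 := by
    have h5 : (s.2 : ℝ) * y = 0 := by linarith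
    rcases mul_eq_zero.1 h5 with h6 | h6
    · exact h6
    · exact absurd h6 hy.ne'
  ext
  · exact_mod_cast h3
  · exact_mod_cast h4

theorem thm (h1 : E1R) (h2 : G_LAT) (h3 : G_BY) : G_FIN := by
  obtain ⟨_, C', hC', hL⟩ := h2
  obtain ⟨C, hC, hB⟩ := h3
  have key : ∀ y : ℝ, 1 ≤ y → ‖PhiB (y:ℂ)‖ ≤ 2 * (C ^ 2 * C') * y ^ (-(1 / 4) : ℝ) := by
    intro y hy
    have hy0 : 0 < y := by linarith
    obtain ⟨-, -, hP⟩ := h1 y hy0
    obtain ⟨⟨s1, b1⟩, -, ⟨s3, b3⟩⟩ := hL y hy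
    have hy1 : y ^ (-(11 / 8) : ℝ) ≤ 1 := Real.rpow_le_one_of_one_le_of_nonpos hy (by norm_num)
    have hyp : 0 < y ^ (-(11 / 8) : ℝ) := Real.rpow_pos_of_pos hy0 _
    have hyp' : 0 < y ^ (-(15 / 8) : ℝ) := Real.rpow_pos_of_pos hy0 _
    have hA : ∀ s, ‖e1A (y:ℂ) s‖ ≤ 2 * C ^ 2 * y ^ (-(11 / 8) : ℝ) *
        (if s.2 = 0 then 0 else ry y s ^ (-3 : ℝ)) := by
      intro s
      unfold e1A
      by_cases hs : InCl 2 s
      · have hs2 : s.2 ≠ 0 := by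
          intro h
          unfold InCl at hs
          omega
        have hs0 : s ≠ 0 := fun h => hs2 (by rw [h]; rfl)
        have hr := ry_pos y hy0 s hs0
        rw [if_pos hs, if_neg hs2, norm_mul, norm_mul, nI_norm y s hr]
        obtain ⟨hY, hW⟩ := (hB y hy s).1 hs
        have hWY : ‖Ws (y:ℂ) s - Ys (y:ℂ) s‖ ≤ 2 * C * ry y s ^ (-(1 / 2) : ℝ) := by
          have hrp : 0 < ry y s ^ (-(1 / 2) : ℝ) := Real.rpow_pos_of_pos hr _
          have h4 : C * ry y s ^ (-(1 / 2) : ℝ) * y ^ (-(11 / 8) : ℝ) ≤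
              C * ry y s ^ (-(1 / 2) : ℝ) * 1 :=
            mul_le_mul_of_nonneg_left hy1 (by positivity)
          have h5 := norm_sub_le (Ws (y:ℂ) s) (Ys (y:ℂ) s)
          linarith
        have h6 : ry y s ^ (-3 : ℝ) = ry y s ^ (-2 : ℝ) *
            (ry y s ^ (-(1 / 2) : ℝ) * ry y s ^ (-(1 / 2) : ℝ)) := by
          rw [← Real.rpow_add hr, ← Real.rpow_add hr]
          norm_num
        calc ry y s ^ (-2 : ℝ) * (‖Ys (y:ℂ) s‖ * ‖Ws (y:ℂ) s - Ys (y:ℂ) s‖)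
            ≤ ry y s ^ (-2 : ℝ) * ((C * ry y s ^ (-(1 / 2) : ℝ) * y ^ (-(11 / 8) : ℝ)) *
              (2 * C * ry y s ^ (-(1 / 2) : ℝ))) := by
              refine mul_le_mul_of_nonneg_left ?_ (Real.rpow_nonneg hr.le _)
              exact mul_le_mul hY hWY (norm_nonneg _) (by positivity)
          _ = 2 * C ^ 2 * y ^ (-(11 / 8) : ℝ) * ry y s ^ (-3 : ℝ) := by rw [h6]; ring
      · rw [if_neg hs, norm_zero]
        refine mul_nonneg (by positivity) ?_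
        split_ifs
        · exact le_refl _
        · exact Real.rpow_nonneg (norm_nonneg _) _
    have hBb : ∀ s, ‖e1B (y:ℂ) s‖ ≤ C ^ 2 * (y ^ (-(11 / 8) : ℝ) * y ^ (-(15 / 8) : ℝ)) *
        (if s = 0 then 0 else ry y s ^ (-(5 / 2) : ℝ)) := by
      intro s
      unfold e1B
      by_cases hs0 : s = 0
      · rw [hs0, nI_zero]
        simp
      · have hr := ry_pos y hy0 s hs0
        rw [if_neg hs0]
        by_cases hs : InCl 0 s
        · rw [if_pos hs, norm_mul, norm_mul, nI_norm y s hr]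
          obtain ⟨hE0, hE2⟩ := (hB y hy s).2 hs hs0
          have h6 : ry y s ^ (-(5 / 2) : ℝ) = ry y s ^ (-2 : ℝ) *
              (ry y s ^ (1 / 2 : ℝ) * ry y s ^ (-1 : ℝ)) := by
            rw [← Real.rpow_add hr, ← Real.rpow_add hr]
            norm_num
          calc ry y s ^ (-2 : ℝ) * (‖Es (y:ℂ) 0 s‖ * ‖Es (y:ℂ) 2 s‖)
              ≤ ry y s ^ (-2 : ℝ) * ((C * ry y s ^ (1 / 2 : ℝ) * y ^ (-(11 / 8) : ℝ)) *
                (C * ry y s ^ (-1 : ℝ) * y ^ (-(15 / 8) : ℝ))) := by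
                refine mul_le_mul_of_nonneg_left ?_ (Real.rpow_nonneg hr.le _)
                exact mul_le_mul hE0 hE2 (norm_nonneg _) (by positivity)
            _ = C ^ 2 * (y ^ (-(11 / 8) : ℝ) * y ^ (-(15 / 8) : ℝ)) * ry y s ^ (-(5 / 2) : ℝ) := by
                rw [h6]; ring
        · rw [if_neg hs, norm_zero]
          exact mul_nonneg (by positivity) (Real.rpow_nonneg (norm_nonneg _) _)
    have hSA : ‖∑' s, e1A (y:ℂ) s‖ ≤ 2 * C ^ 2 * y ^ (-(11 / 8) : ℝ) *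
        ∑' s : ℤ × ℤ, (if s.2 = 0 then 0 else ry y s ^ (-3 : ℝ)) :=
      tsum_of_norm_bounded (s3.hasSum.mul_left _) hA
    have hSB : ‖∑' s, e1B (y:ℂ) s‖ ≤ C ^ 2 * (y ^ (-(11 / 8) : ℝ) * y ^ (-(15 / 8) : ℝ)) *
        ∑' s : ℤ × ℤ, (if s = 0 then 0 else ry y s ^ (-(5 / 2) : ℝ)) :=
      tsum_of_norm_bounded (s1.hasSum.mul_left _) hBb
    have hSA' : ‖∑' s, e1A (y:ℂ) s‖ ≤ 2 * C ^ 2 * y ^ (-(11 / 8) : ℝ) *
        (C' * y ^ (-(15 / 8) : ℝ)) :=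
      hSA.trans (mul_le_mul_of_nonneg_left b3 (by positivity))
    have hSB' : ‖∑' s, e1B (y:ℂ) s‖ ≤ C ^ 2 * (y ^ (-(11 / 8) : ℝ) * y ^ (-(15 / 8) : ℝ)) * C' :=
      hSB.trans (mul_le_mul_of_nonneg_left b1 (by positivity))
    have hpow : y ^ (3:ℕ) * (y ^ (-(11 / 8) : ℝ) * y ^ (-(15 / 8) : ℝ)) = y ^ (-(1 / 4) : ℝ) := by
      rw [← Real.rpow_natCast, ← Real.rpow_add hy0, ← Real.rpow_add hy0]
      norm_num
    rw [hP, norm_mul, norm_mul, norm_neg, norm_pow, Complex.norm_real, Real.norm_of_nonneg hy0.le]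
    have h23 : ‖(2 / 3 : ℂ)‖ = 2 / 3 := by
      norm_num
    rw [h23]
    have hadd := norm_add_le (∑' s, e1A (y:ℂ) s) (∑' s, e1B (y:ℂ) s)
    calc 2 / 3 * y ^ 3 * ‖∑' s, e1A (y:ℂ) s + ∑' s, e1B (y:ℂ) s‖
        ≤ 2 / 3 * y ^ 3 * (2 * C ^ 2 * y ^ (-(11 / 8) : ℝ) * (C' * y ^ (-(15 / 8) : ℝ)) +
          C ^ 2 * (y ^ (-(11 / 8) : ℝ) * y ^ (-(15 / 8) : ℝ)) * C') :=
          mul_le_mul_of_nonneg_left (by linarith) (by positivity)
      _ = 2 * (C ^ 2 * C') * (y ^ (3:ℕ) * (y ^ (-(11 / 8) : ℝ) * y ^ (-(15 / 8) : ℝ))) := by ring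
      _ = 2 * (C ^ 2 * C') * y ^ (-(1 / 4) : ℝ) := by rw [hpow]
  have hlim : Tendsto (fun y : ℝ => 2 * (C ^ 2 * C') * y ^ (-(1 / 4) : ℝ)) atTop (𝓝 0) := by
    have h4 := (tendsto_rpow_neg_atTop (by norm_num : (0:ℝ) < 1 / 4)).const_mul (2 * (C ^ 2 * C'))
    rw [mul_zero] at h4
    exact h4
  have hfin : Tendsto (fun y : ℝ => PhiB (y:ℂ)) atTop (𝓝 0) := by
    refine squeeze_zero_norm' ?_ hlim
    filter_upwards [eventually_ge_atTop (1:ℝ)] with y hy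
    exact key y hy
  exact hfin

end Pool.Agent.Helper85.EC.E_FIN
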